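import Mathlib

open MeasureTheory Metric Set Filter Topology
open scoped ENNReal NNReal Real

namespace Pool.Agent.Results.MP_19b229_an.HolderPotential

/-- `ℝ^N`. -/
abbrev E (N : ℕ) := EuclideanSpace ℝ (Fin N)

/-- The fundamental solution `Γ` of `-Δ` in `ℝ^N` (`N ≥ 2`). -/
noncomputable def fundSol (N : ℕ) (x : E N) : ℝ :=
  if N = 2 then -(1 / (2 * π)) * Real.log ‖x‖
  else 1 / (((N : ℝ) - 2) * (N * (volume (ball (0 : E N) 1)).toReal)) * ‖x‖ ^ (2 - (N : ℝ))

/-- Newtonian potential of a finite signed measure. -/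
noncomputable def newtonPotential {N : ℕ} (μ : SignedMeasure (E N)) (x : E N) : ℝ :=
  (∫ y, fundSol N (x - y) ∂μ.toJordanDecomposition.posPart) -
    ∫ y, fundSol N (x - y) ∂μ.toJordanDecomposition.negPart

section calculus

variable {N : ℕ}

/-- standard basis vector -/
noncomputable def bv (i : Fin N) : E N := EuclideanSpace.single i (1 : ℝ)

/-- The Laplacian, as the sum of the pure second derivatives. -/
noncomputable def lap (ψ : E N → ℝ) (z : E N) : ℝ :=
  ∑ i : Fin N, fderiv ℝ (fun w => fderiv ℝ ψ w (bv i)) z (bv i)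

/-- coordinate functional -/
noncomputable def cd (i : Fin N) : E N →L[ℝ] ℝ := EuclideanSpace.proj i

lemma cd_apply (i : Fin N) (z : E N) : cd i z = z i := rfl

lemma inner_bv (z : E N) (i : Fin N) : inner ℝ z (bv i) = z i := by
  rw [bv, EuclideanSpace.inner_single_right]; simp

lemma hasFDerivAt_q (ε : ℝ) (z : E N) :
    HasFDerivAt (fun w : E N => ‖w‖ ^ 2 + ε ^ 2) (2 • (innerSL ℝ z)) z :=
  ((hasStrictFDerivAt_norm_sq z).hasFDerivAt).add_const _

lemma q_pos {ε : ℝ} (hε : 0 < ε) (z : E N) : 0 < ‖z‖ ^ 2 + ε ^ 2 := by positivity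

lemma deriv1 {g : ℝ → ℝ} (hg : ∀ t : ℝ, 0 < t → HasDerivAt g (-(t ^ (-(N : ℝ) / 2))) t)
    {ε : ℝ} (hε : 0 < ε) (z : E N) (i : Fin N) :
    HasFDerivAt (fun w : E N => g (‖w‖ ^ 2 + ε ^ 2))
      ((-((‖z‖ ^ 2 + ε ^ 2) ^ (-(N : ℝ) / 2))) • (2 • (innerSL ℝ z))) z :=
  have _ := i
  (hg _ (q_pos hε z)).comp_hasFDerivAt z (hasFDerivAt_q ε z)

lemma fderiv1 {g : ℝ → ℝ} (hg : ∀ t : ℝ, 0 < t → HasDerivAt g (-(t ^ (-(N : ℝ) / 2))) t)
    {ε : ℝ} (hε : 0 < ε) (z : E N) (i : Fin N) :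
    fderiv ℝ (fun w : E N => g (‖w‖ ^ 2 + ε ^ 2)) z (bv i) =
      -(2 * z i * (‖z‖ ^ 2 + ε ^ 2) ^ (-(N : ℝ) / 2)) := by
  rw [(deriv1 hg hε z i).fderiv]
  have := inner_bv z i
  simp only [smul_apply, innerSL_apply_apply, this, smul_eq_mul, nsmul_eq_mul]
  push_cast
  ring

lemma deriv2 {ε : ℝ} (hε : 0 < ε) (z : E N) (i : Fin N) :
    fderiv ℝ (fun w : E N => -(2 * w i * (‖w‖ ^ 2 + ε ^ 2) ^ (-(N : ℝ) / 2))) z (bv i) =
      -(2 * (‖z‖ ^ 2 + ε ^ 2) ^ (-(N : ℝ) / 2)) +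
        2 * N * (z i) ^ 2 * (‖z‖ ^ 2 + ε ^ 2) ^ (-(N : ℝ) / 2 - 1) := by
  have h1 : HasFDerivAt (fun w : E N => w i) (cd i) z := (cd i).hasFDerivAt
  have h2 : HasFDerivAt (fun w : E N => (‖w‖ ^ 2 + ε ^ 2) ^ (-(N : ℝ) / 2))
      (((-(N : ℝ) / 2) * (‖z‖ ^ 2 + ε ^ 2) ^ (-(N : ℝ) / 2 - 1)) • (2 • (innerSL ℝ z))) z := by
    have := (Real.hasDerivAt_rpow_const (x := ‖z‖ ^ 2 + ε ^ 2) (p := -(N : ℝ) / 2)
      (Or.inl (q_pos hε z).ne')).comp_hasFDerivAt z (hasFDerivAt_q ε z)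
    exact this
  have h3 := ((h1.const_mul 2).mul h2).neg
  have h4 : fderiv ℝ (fun w : E N => -(2 * w i * (‖w‖ ^ 2 + ε ^ 2) ^ (-(N : ℝ) / 2))) z = _ :=
    h3.fderiv
  rw [h4]
  have := inner_bv z i
  have hp : cd i (bv i) = 1 := by
    rw [cd_apply]; simp [bv]
  simp only [neg_apply, add_apply, smul_apply, innerSL_apply_apply, this, hp, smul_eq_mul,
    nsmul_eq_mul]
  push_cast
  ring

lemma diff_f2 {ε : ℝ} (hε : 0 < ε) (i : Fin N) :
    ContDiff ℝ 1 (fun w : E N => -(2 * w i * (‖w‖ ^ 2 + ε ^ 2) ^ (-(N : ℝ) / 2))) := by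
  have h1 : ContDiff ℝ 1 (fun w : E N => w i) := (cd i).contDiff
  have h2 : ContDiff ℝ 1 (fun w : E N => ‖w‖ ^ 2 + ε ^ 2) :=
    (contDiff_norm_sq ℝ).add contDiff_const
  exact ((contDiff_const.mul h1).mul
    (h2.rpow_const_of_ne (fun z => (q_pos hε z).ne'))).neg

lemma ibp {g : ℝ → ℝ} (hg : ∀ t : ℝ, 0 < t → HasDerivAt g (-(t ^ (-(N : ℝ) / 2))) t)
    {ε : ℝ} (hε : 0 < ε) {ψ : E N → ℝ} (hψ : ContDiff ℝ 2 ψ) (hc : HasCompactSupport ψ) :
    ∫ z, g (‖z‖ ^ 2 + ε ^ 2) * lap ψ z =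
      -(2 * N) * ∫ z, ε ^ 2 * (‖z‖ ^ 2 + ε ^ 2) ^ (-(N : ℝ) / 2 - 1) * ψ z := by
  have hgc : Continuous (fun z : E N => g (‖z‖ ^ 2 + ε ^ 2)) := by
    rw [continuous_iff_continuousAt]
    intro z
    have h1 : ContinuousAt g (‖z‖ ^ 2 + ε ^ 2) := (hg _ (q_pos hε z)).continuousAt
    exact ContinuousAt.comp (f := fun z : E N => ‖z‖ ^ 2 + ε ^ 2) h1
      (by fun_prop)
  have hψ1 : ContDiff ℝ 1 (fun w => fderiv ℝ ψ w) := hψ.fderiv_right (by norm_num)
  have hψ1i : ∀ i : Fin N, ContDiff ℝ 1 (fun w => fderiv ℝ ψ w (bv i)) := fun i =>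
    hψ1.clm_apply contDiff_const
  have hψ2i : ∀ i : Fin N, Continuous (fun z => fderiv ℝ (fun w => fderiv ℝ ψ w (bv i)) z (bv i)) :=
    fun i => ((hψ1i i).continuous_fderiv (by norm_num)).clm_apply continuous_const
  have hc1i : ∀ i : Fin N, HasCompactSupport (fun w => fderiv ℝ ψ w (bv i)) := fun i =>
    hc.fderiv_apply (𝕜 := ℝ) (bv i)
  have hc2i : ∀ i : Fin N, HasCompactSupport
      (fun z => fderiv ℝ (fun w => fderiv ℝ ψ w (bv i)) z (bv i)) := fun i =>
    (hc1i i).fderiv_apply (𝕜 := ℝ) (bv i)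
  have hf2 := fun i : Fin N => diff_f2 (N := N) hε i
  have key : ∀ i : Fin N, ∫ z, g (‖z‖ ^ 2 + ε ^ 2) *
      fderiv ℝ (fun w => fderiv ℝ ψ w (bv i)) z (bv i) =
      ∫ z, (-(2 * (‖z‖ ^ 2 + ε ^ 2) ^ (-(N : ℝ) / 2)) +
        2 * N * (z i) ^ 2 * (‖z‖ ^ 2 + ε ^ 2) ^ (-(N : ℝ) / 2 - 1)) * ψ z := by
    intro i
    have hfd : (fun z => fderiv ℝ (fun w : E N => g (‖w‖ ^ 2 + ε ^ 2)) z (bv i)) =
        fun z => -(2 * z i * (‖z‖ ^ 2 + ε ^ 2) ^ (-(N : ℝ) / 2)) := by
      funext z; exact fderiv1 hg hε z i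
    have e1 := integral_mul_fderiv_eq_neg_fderiv_mul_of_integrable (μ := (volume : Measure (E N)))
      (f := fun w : E N => g (‖w‖ ^ 2 + ε ^ 2)) (g := fun w => fderiv ℝ ψ w (bv i)) (v := bv i)
      (by
        simp only [fun z => congrFun hfd z]
        exact ((hf2 i).continuous.mul (hψ1i i).continuous).integrable_of_hasCompactSupport
          ((hc1i i).mul_left))
      ((hgc.mul (hψ2i i)).integrable_of_hasCompactSupport ((hc2i i).mul_left))
      ((hgc.mul (hψ1i i).continuous).integrable_of_hasCompactSupport ((hc1i i).mul_left))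
      (fun x _ => (deriv1 hg hε x i).differentiableAt)
      (fun x _ => (hψ1i i).differentiable (by norm_num) x)
    have hfd2 : (fun z => fderiv ℝ (fun w : E N => -(2 * w i * (‖w‖ ^ 2 + ε ^ 2) ^ (-(N : ℝ) / 2)))
        z (bv i)) = fun z => -(2 * (‖z‖ ^ 2 + ε ^ 2) ^ (-(N : ℝ) / 2)) +
        2 * N * (z i) ^ 2 * (‖z‖ ^ 2 + ε ^ 2) ^ (-(N : ℝ) / 2 - 1) := by
      funext z; exact deriv2 hε z i
    have e2 := integral_mul_fderiv_eq_neg_fderiv_mul_of_integrable (μ := (volume : Measure (E N)))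
      (f := fun w : E N => -(2 * w i * (‖w‖ ^ 2 + ε ^ 2) ^ (-(N : ℝ) / 2))) (g := ψ) (v := bv i)
      ((((hf2 i).continuous_fderiv (by norm_num)).clm_apply continuous_const |>.mul
        hψ.continuous).integrable_of_hasCompactSupport (hc.mul_left))
      (((hf2 i).continuous.mul (hψ1i i).continuous).integrable_of_hasCompactSupport
          ((hc1i i).mul_left))
      (((hf2 i).continuous.mul hψ.continuous).integrable_of_hasCompactSupport (hc.mul_left))
      (fun x _ => (hf2 i).differentiable (by norm_num) x)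
      (fun x _ => hψ.differentiable (by norm_num) x)
    rw [e1]
    simp only [fun z => congrFun hfd z]
    rw [e2]
    simp only [fun z => congrFun hfd2 z]
    rw [neg_neg]
  have hcont3 : ∀ p : ℝ, Continuous (fun z : E N => (‖z‖ ^ 2 + ε ^ 2) ^ p) := by
    intro p
    have h2 : Continuous (fun w : E N => ‖w‖ ^ 2 + ε ^ 2) := by fun_prop
    exact h2.rpow_const (fun z => Or.inl (q_pos hε z).ne')
  have hint2 : ∀ i : Fin N, Integrable (fun z : E N => (-(2 * (‖z‖ ^ 2 + ε ^ 2) ^ (-(N : ℝ) / 2)) +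
        2 * N * (z i) ^ 2 * (‖z‖ ^ 2 + ε ^ 2) ^ (-(N : ℝ) / 2 - 1)) * ψ z) := by
    intro i
    refine Continuous.integrable_of_hasCompactSupport ?_ (hc.mul_left)
    refine Continuous.mul ?_ hψ.continuous
    refine ((continuous_const.mul (hcont3 _)).neg).add ((Continuous.mul ?_ (hcont3 _)))
    have : Continuous (fun w : E N => w i) := (cd i).continuous
    exact continuous_const.mul (this.pow 2)
  calc ∫ z, g (‖z‖ ^ 2 + ε ^ 2) * lap ψ z
      = ∫ z, ∑ i : Fin N, g (‖z‖ ^ 2 + ε ^ 2) *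
          fderiv ℝ (fun w => fderiv ℝ ψ w (bv i)) z (bv i) := by
        congr 1; funext z; rw [lap, Finset.mul_sum]
    _ = ∑ i : Fin N, ∫ z, g (‖z‖ ^ 2 + ε ^ 2) *
          fderiv ℝ (fun w => fderiv ℝ ψ w (bv i)) z (bv i) :=
        integral_finsetSum _ (fun i _ =>
          (hgc.mul (hψ2i i)).integrable_of_hasCompactSupport ((hc2i i).mul_left))
    _ = ∑ i : Fin N, ∫ z, (-(2 * (‖z‖ ^ 2 + ε ^ 2) ^ (-(N : ℝ) / 2)) +
        2 * N * (z i) ^ 2 * (‖z‖ ^ 2 + ε ^ 2) ^ (-(N : ℝ) / 2 - 1)) * ψ z :=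
        Finset.sum_congr rfl (fun i _ => key i)
    _ = ∫ z, ∑ i : Fin N, (-(2 * (‖z‖ ^ 2 + ε ^ 2) ^ (-(N : ℝ) / 2)) +
        2 * N * (z i) ^ 2 * (‖z‖ ^ 2 + ε ^ 2) ^ (-(N : ℝ) / 2 - 1)) * ψ z :=
        (integral_finsetSum _ (fun i _ => hint2 i)).symm
    _ = ∫ z, -(2 * N) * (ε ^ 2 * (‖z‖ ^ 2 + ε ^ 2) ^ (-(N : ℝ) / 2 - 1) * ψ z) := by
        congr 1; funext z
        rw [← Finset.sum_mul, Finset.sum_add_distrib, ← Finset.sum_mul, ← Finset.mul_sum]
        have hn : ∑ i : Fin N, (z i) ^ 2 = ‖z‖ ^ 2 := (EuclideanSpace.real_norm_sq_eq z).symm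
        rw [hn]
        have hq : (‖z‖ ^ 2 + ε ^ 2) ^ (-(N : ℝ) / 2) =
            (‖z‖ ^ 2 + ε ^ 2) ^ (-(N : ℝ) / 2 - 1) * (‖z‖ ^ 2 + ε ^ 2) := by
          conv_rhs => rw [← Real.rpow_add_one (q_pos hε z).ne']
          congr 1; ring
        simp only [Finset.sum_const, Finset.card_univ, Fintype.card_fin, nsmul_eq_mul]
        rw [hq]
        ring
    _ = _ := integral_const_mul _ _

lemma lap_continuous {ψ : E N → ℝ} (hψ : ContDiff ℝ 2 ψ) : Continuous (lap ψ) := by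
  have hψ1 : ContDiff ℝ 1 (fun w => fderiv ℝ ψ w) := hψ.fderiv_right (by norm_num)
  have hψ1i : ∀ i : Fin N, ContDiff ℝ 1 (fun w => fderiv ℝ ψ w (bv i)) := fun i =>
    hψ1.clm_apply contDiff_const
  exact continuous_finsetSum _ fun i _ =>
    ((hψ1i i).continuous_fderiv (by norm_num)).clm_apply continuous_const

lemma lap_zero_of_notMem {ψ : E N → ℝ} {z : E N} (hz : z ∉ tsupport ψ) : lap ψ z = 0 := by
  refine Finset.sum_eq_zero fun i _ => ?_
  have h1 : tsupport (fun w => fderiv ℝ ψ w (bv i)) ⊆ tsupport ψ :=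
    tsupport_fderiv_apply_subset ℝ (bv i)
  have h2 : tsupport (fun z => fderiv ℝ (fun w => fderiv ℝ ψ w (bv i)) z (bv i)) ⊆ tsupport ψ :=
    (tsupport_fderiv_apply_subset ℝ (bv i)).trans h1
  exact image_eq_zero_of_notMem_tsupport (f := fun z => fderiv ℝ (fun w => fderiv ℝ ψ w (bv i)) z (bv i))
    (fun h => hz (h2 h))

lemma scale_int {ε : ℝ} (hε : 0 < ε) (ψ : E N → ℝ) :
    ∫ z, ε ^ 2 * (‖z‖ ^ 2 + ε ^ 2) ^ (-(N : ℝ) / 2 - 1) * ψ z =
      ∫ w, (1 + ‖w‖ ^ 2) ^ (-((N : ℝ) + 2) / 2) * ψ (ε • w) := by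
  have h := Measure.integral_comp_smul (volume : Measure (E N))
    (fun z => ε ^ 2 * (‖z‖ ^ 2 + ε ^ 2) ^ (-(N : ℝ) / 2 - 1) * ψ z) ε
  rw [finrank_euclideanSpace_fin, smul_eq_mul] at h
  have hN : (0 : ℝ) < ε ^ N := by positivity
  rw [abs_of_pos (inv_pos.2 hN)] at h
  have h2 : ∫ z, ε ^ 2 * (‖z‖ ^ 2 + ε ^ 2) ^ (-(N : ℝ) / 2 - 1) * ψ z =
      ε ^ N * ∫ w : E N, ε ^ 2 * (‖ε • w‖ ^ 2 + ε ^ 2) ^ (-(N : ℝ) / 2 - 1) * ψ (ε • w) := by
    rw [h]; field_simp
  rw [h2, ← integral_const_mul]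
  congr 1; funext w
  have e1 : ‖ε • w‖ ^ 2 + ε ^ 2 = ε ^ 2 * (1 + ‖w‖ ^ 2) := by
    rw [norm_smul, Real.norm_of_nonneg hε.le]; ring
  have h1w : (0 : ℝ) ≤ 1 + ‖w‖ ^ 2 := by positivity
  rw [e1, Real.mul_rpow (by positivity) h1w]
  have e2 : (ε ^ 2) ^ (-(N : ℝ) / 2 - 1) = (ε ^ N * ε ^ 2)⁻¹ := by
    rw [← Real.rpow_natCast ε 2, ← Real.rpow_mul hε.le, ← Real.rpow_natCast ε N,
      ← Real.rpow_add hε, ← Real.rpow_neg hε.le]
    congr 1; push_cast; ring
  rw [e2]
  have e3 : -((N : ℝ) + 2) / 2 = -(N : ℝ) / 2 - 1 := by ring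
  rw [e3]
  have hε2 : ε ^ 2 ≠ 0 := by positivity
  field_simp

/-- The constant `∫ (1 + |w|²)^{-(N+2)/2} dw`. -/
noncomputable def cN (N : ℕ) : ℝ := ∫ w : E N, (1 + ‖w‖ ^ 2) ^ (-((N : ℝ) + 2) / 2)

lemma integrable_kern : Integrable (fun w : E N => (1 + ‖w‖ ^ 2) ^ (-((N : ℝ) + 2) / 2)) := by
  apply integrable_rpow_neg_one_add_norm_sq
  rw [finrank_euclideanSpace_fin]; linarith

lemma cN_pos : 0 < cN N := by
  have hpos : ∀ w : E N, 0 < (1 + ‖w‖ ^ 2) ^ (-((N : ℝ) + 2) / 2) := fun w =>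
    Real.rpow_pos_of_pos (by positivity) _
  rw [cN, integral_pos_iff_support_of_nonneg (fun w => (hpos w).le) integrable_kern]
  have : Function.support (fun w : E N => (1 + ‖w‖ ^ 2) ^ (-((N : ℝ) + 2) / 2)) = univ := by
    ext w; exact ⟨fun _ => mem_univ _, fun _ => (hpos w).ne'⟩
  rw [this]
  exact Measure.measure_univ_pos.2 (NeZero.ne _)

lemma fund_id {g : ℝ → ℝ} (hg : ∀ t : ℝ, 0 < t → HasDerivAt g (-(t ^ (-(N : ℝ) / 2))) t)
    (hloc : ∀ R : ℝ, IntegrableOn (fun z : E N => g (‖z‖ ^ 2)) (closedBall 0 R)) (hN : 2 ≤ N)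
    {ψ : E N → ℝ} (hψ : ContDiff ℝ 2 ψ) (hc : HasCompactSupport ψ) :
    ∫ z, g (‖z‖ ^ 2) * lap ψ z = -(2 * N * cN N) * ψ 0 := by
  obtain ⟨R, hR0, hR⟩ : ∃ R : ℝ, 0 < R ∧ tsupport ψ ⊆ closedBall 0 R := by
    obtain ⟨R, hR⟩ := hc.isCompact.isBounded.subset_closedBall 0
    exact ⟨max R 1, by positivity, hR.trans (closedBall_subset_closedBall (le_max_left _ _))⟩
  have hlapc := lap_continuous hψ
  obtain ⟨M, hM⟩ : ∃ M : ℝ, ∀ z, |lap ψ z| ≤ M := by
    have hcs : HasCompactSupport (lap ψ) := by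
      refine HasCompactSupport.intro' hc.isCompact hc.isCompact.isClosed ?_
      intro x hx; exact lap_zero_of_notMem hx
    obtain ⟨M, hM⟩ := hcs.exists_bound_of_continuous hlapc
    exact ⟨M, hM⟩
  have hM0 : 0 ≤ M := (abs_nonneg _).trans (hM 0)
  have hanti : AntitoneOn g (Ioi 0) := by
    refine antitoneOn_of_deriv_nonpos (convex_Ioi 0) ?_ ?_ ?_
    · exact fun t ht => (hg t ht).continuousAt.continuousWithinAt
    · rw [interior_Ioi]
      exact fun t ht => (hg t ht).differentiableAt.differentiableWithinAt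
    · rw [interior_Ioi]
      intro t ht
      rw [(hg t ht).deriv]
      have := Real.rpow_nonneg (le_of_lt ht) (-(N : ℝ) / 2)
      linarith
  set ε : ℕ → ℝ := fun n => 1 / ((n : ℝ) + 1) with hεdef
  have hεpos : ∀ n, 0 < ε n := fun n => by positivity
  have hεle : ∀ n, ε n ≤ 1 := fun n => by
    rw [hεdef]; simp only
    rw [div_le_one (by positivity)]; linarith [Nat.cast_nonneg (α := ℝ) n]
  have hε0 : Tendsto ε atTop (𝓝 0) := tendsto_one_div_add_atTop_nhds_zero_nat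
  have hne : ∀ᵐ z : E N, z ≠ 0 := by
    have : (volume : Measure (E N)) {0} = 0 := by
      have : Nonempty (Fin N) := ⟨⟨0, by omega⟩⟩
      exact measure_singleton 0
    rw [ae_iff]; simpa using this
  -- left side
  have hL : Tendsto (fun n => ∫ z, g (‖z‖ ^ 2 + ε n ^ 2) * lap ψ z) atTop
      (𝓝 (∫ z, g (‖z‖ ^ 2) * lap ψ z)) := by
    refine tendsto_integral_of_dominated_convergence
      (fun z => (closedBall (0 : E N) R).indicator
        (fun z => (|g (‖z‖ ^ 2)| + |g (R ^ 2 + 1)|) * M) z) ?_ ?_ ?_ ?_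
    · intro n
      have hgc : Continuous (fun z : E N => g (‖z‖ ^ 2 + ε n ^ 2)) := by
        rw [continuous_iff_continuousAt]
        intro z
        have h1 : ContinuousAt g (‖z‖ ^ 2 + ε n ^ 2) := (hg _ (q_pos (hεpos n) z)).continuousAt
        exact ContinuousAt.comp (f := fun z : E N => ‖z‖ ^ 2 + ε n ^ 2) h1
          (by fun_prop)
      exact (hgc.mul hlapc).aestronglyMeasurable
    · rw [integrable_indicator_iff measurableSet_closedBall]
      refine Integrable.mul_const ?_ M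
      refine Integrable.add (hloc R).abs ?_
      exact integrableOn_const (by
        exact (isCompact_closedBall (0 : E N) R).measure_lt_top.ne)
    · intro n
      filter_upwards [hne] with z hz
      by_cases hzR : z ∈ closedBall (0 : E N) R
      · rw [indicator_of_mem hzR, norm_mul, Real.norm_eq_abs, Real.norm_eq_abs]
        refine mul_le_mul ?_ (hM z) (abs_nonneg _) (by positivity)
        have hz0 : 0 < ‖z‖ ^ 2 := by positivity
        have hzR' : ‖z‖ ≤ R := by simpa using hzR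
        have h1 : g (‖z‖ ^ 2 + ε n ^ 2) ≤ g (‖z‖ ^ 2) :=
          hanti (mem_Ioi.2 hz0) (mem_Ioi.2 (q_pos (hεpos n) z)) (by nlinarith [sq_nonneg (ε n)])
        have h2 : g (R ^ 2 + 1) ≤ g (‖z‖ ^ 2 + ε n ^ 2) :=
          hanti (mem_Ioi.2 (q_pos (hεpos n) z)) (mem_Ioi.2 (by positivity)) (by
            have := hεle n
            have := hεpos n
            have := norm_nonneg z
            nlinarith)
        rw [abs_le]
        constructor
        · have := neg_abs_le (g (R ^ 2 + 1)); have := abs_nonneg (g (‖z‖ ^ 2)); linarith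
        · have := le_abs_self (g (‖z‖ ^ 2)); have := abs_nonneg (g (R ^ 2 + 1)); linarith
      · rw [indicator_of_notMem hzR, lap_zero_of_notMem (fun h => hzR (hR h))]
        simp
    · filter_upwards [hne] with z hz
      have hz0 : 0 < ‖z‖ ^ 2 := by positivity
      refine Tendsto.mul_const _ ?_
      have h1 : Tendsto (fun n => ‖z‖ ^ 2 + ε n ^ 2) atTop (𝓝 (‖z‖ ^ 2)) := by
        have := (hε0.pow 2).const_add (‖z‖ ^ 2)
        simpa using this
      exact ((hg _ hz0).continuousAt.tendsto).comp h1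
  have hRt : Tendsto (fun n => -(2 * (N : ℝ)) * ∫ w : E N, (1 + ‖w‖ ^ 2) ^ (-((N : ℝ) + 2) / 2) *
      ψ (ε n • w)) atTop (𝓝 (-(2 * (N : ℝ)) * ∫ w : E N, (1 + ‖w‖ ^ 2) ^ (-((N : ℝ) + 2) / 2) * ψ 0)) := by
    refine Tendsto.const_mul _ ?_
    obtain ⟨K, hK⟩ := hc.exists_bound_of_continuous hψ.continuous
    refine tendsto_integral_of_dominated_convergence
      (fun w => (1 + ‖w‖ ^ 2) ^ (-((N : ℝ) + 2) / 2) * K) ?_ ?_ ?_ ?_
    · intro n
      refine (integrable_kern.aestronglyMeasurable).mul ?_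
      exact (hψ.continuous.comp (continuous_const_smul (ε n))).aestronglyMeasurable
    · exact integrable_kern.mul_const K
    · intro n
      refine Eventually.of_forall fun w => ?_
      have h0 : 0 ≤ (1 + ‖w‖ ^ 2) ^ (-((N : ℝ) + 2) / 2) :=
        Real.rpow_nonneg (by positivity) _
      rw [norm_mul, Real.norm_of_nonneg h0]
      exact mul_le_mul_of_nonneg_left (hK _) h0
    · refine Eventually.of_forall fun w => ?_
      refine Tendsto.const_mul _ ?_
      have h1 : Tendsto (fun n => ε n • w) atTop (𝓝 ((0 : ℝ) • w)) := hε0.smul_const w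
      rw [zero_smul] at h1
      exact (hψ.continuous.tendsto 0).comp h1
  have heq : ∀ n, ∫ z, g (‖z‖ ^ 2 + ε n ^ 2) * lap ψ z = -(2 * N) *
      ∫ w : E N, (1 + ‖w‖ ^ 2) ^ (-((N : ℝ) + 2) / 2) * ψ (ε n • w) := fun n => by
    rw [ibp hg (hεpos n) hψ hc, scale_int (hεpos n)]
  have := tendsto_nhds_unique (hL.congr heq) hRt
  rw [this, integral_mul_const, cN]
  ring

/-- The radial profile: `Γ = a_N g_N(|x|²)`. -/
noncomputable def gN (N : ℕ) (t : ℝ) : ℝ :=
  if N = 2 then -Real.log t else 2 / ((N : ℝ) - 2) * t ^ ((2 - (N : ℝ)) / 2)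

/-- The multiplicative constant `a_N`. -/
noncomputable def aN (N : ℕ) : ℝ :=
  if N = 2 then 1 / (4 * π) else 1 / (2 * (N * (volume (ball (0 : E N) 1)).toReal))

lemma kappa_pos : 0 < (volume (ball (0 : E N) 1)).toReal :=
  ENNReal.toReal_pos (measure_ball_pos _ _ one_pos).ne' measure_ball_lt_top.ne

lemma aN_pos (hN : 2 ≤ N) : 0 < aN N := by
  unfold aN
  split_ifs with h
  · positivity
  · have := kappa_pos (N := N)
    have : (0 : ℝ) < N := by exact_mod_cast (by omega : 0 < N)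
    positivity

lemma fundSol_eq (hN : 2 ≤ N) (x : E N) : fundSol N x = aN N * gN N (‖x‖ ^ 2) := by
  unfold fundSol aN gN
  split_ifs with h
  · rw [Real.log_pow]; push_cast; field_simp; ring
  · have h1 := kappa_pos (N := N)
    have h2 : (0 : ℝ) < N := by exact_mod_cast (by omega : 0 < N)
    have h3 : (0 : ℝ) < (N : ℝ) - 2 := by
      have : 2 < N := lt_of_le_of_ne hN (Ne.symm h)
      have : (2 : ℝ) < N := by exact_mod_cast this
      linarith
    have h4 : ‖x‖ ^ (2 - (N : ℝ)) = (‖x‖ ^ 2) ^ ((2 - (N : ℝ)) / 2) := by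
      rw [← Real.rpow_natCast_mul (norm_nonneg x)]; congr 1; push_cast; ring
    rw [h4]; field_simp

lemma gN_deriv (hN : 2 ≤ N) (t : ℝ) (ht : 0 < t) :
    HasDerivAt (gN N) (-(t ^ (-(N : ℝ) / 2))) t := by
  unfold gN
  split_ifs with h
  · subst h
    have h1 : HasDerivAt (fun t => -Real.log t) (-t⁻¹) t := (Real.hasDerivAt_log ht.ne').neg
    refine h1.congr_deriv ?_
    have : (-((2 : ℕ) : ℝ) / 2) = -1 := by norm_num
    rw [this, Real.rpow_neg_one]
  · have h3 : (0 : ℝ) < (N : ℝ) - 2 := by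
      have : 2 < N := lt_of_le_of_ne hN (Ne.symm h)
      have : (2 : ℝ) < N := by exact_mod_cast this
      linarith
    have := (Real.hasDerivAt_rpow_const (x := t) (p := (2 - (N : ℝ)) / 2)
      (Or.inl ht.ne')).const_mul (2 / ((N : ℝ) - 2))
    refine this.congr_deriv ?_
    have e : (2 - (N : ℝ)) / 2 - 1 = -(N : ℝ) / 2 := by ring
    rw [e]; field_simp; ring

lemma gN_loc (hN : 2 ≤ N) (R : ℝ) :
    IntegrableOn (fun z : E N => gN N (‖z‖ ^ 2)) (closedBall 0 R) := by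
  have hne : Nontrivial (E N) := by
    have : Nontrivial (Fin N) := ⟨⟨⟨0, by omega⟩, ⟨1, by omega⟩, by simp⟩⟩
    have : Nonempty (Fin N) := ⟨⟨0, by omega⟩⟩
    infer_instance
  rw [← integrable_indicator_iff measurableSet_closedBall]
  have e1 : (closedBall (0 : E N) R).indicator (fun z : E N => gN N (‖z‖ ^ 2)) =
      fun z : E N => (Iic R).indicator (fun r : ℝ => gN N (r ^ 2)) ‖z‖ := by
    funext z
    by_cases hz : ‖z‖ ≤ R
    · rw [indicator_of_mem (by simpa using hz), indicator_of_mem (mem_Iic.2 hz)]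
    · rw [indicator_of_notMem (by simpa using hz), indicator_of_notMem (by simpa using hz)]
  rw [e1, integrable_fun_norm_addHaar, finrank_euclideanSpace_fin]
  obtain ⟨k, hk, hkc⟩ : ∃ k : ℝ → ℝ, (∀ y : ℝ, 0 < y → y ^ (N - 1) * gN N (y ^ 2) = k y) ∧
      Continuous k := by
    by_cases h : N = 2
    · subst h
      refine ⟨fun y => -(2 * (y * Real.log y)), ?_, (continuous_const.mul Real.continuous_mul_log).neg⟩
      intro y hy
      simp only [gN, if_true, Real.log_pow]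
      push_cast; ring
    · refine ⟨fun y => 2 / ((N : ℝ) - 2) * y, ?_, continuous_const.mul continuous_id⟩
      intro y hy
      simp only [gN, if_neg h]
      have h4 : (y ^ 2) ^ ((2 - (N : ℝ)) / 2) = y ^ (2 - (N : ℝ)) := by
        rw [← Real.rpow_natCast_mul hy.le]; congr 1; push_cast; ring
      rw [h4]
      have h5 : y ^ (N - 1) * y ^ (2 - (N : ℝ)) = y := by
        rw [← Real.rpow_natCast y (N - 1), ← Real.rpow_add hy, Nat.cast_sub (by omega)]
        conv_rhs => rw [← Real.rpow_one y]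
        congr 1; push_cast; ring
      calc y ^ (N - 1) * (2 / ((N : ℝ) - 2) * y ^ (2 - (N : ℝ)))
          = 2 / ((N : ℝ) - 2) * (y ^ (N - 1) * y ^ (2 - (N : ℝ))) := by ring
        _ = _ := by rw [h5]
  have e2 : EqOn (fun y : ℝ => y ^ (N - 1) • (Iic R).indicator (fun r : ℝ => gN N (r ^ 2)) y)
      ((Iic R).indicator k) (Ioi 0) := by
    intro y hy
    by_cases hyR : y ∈ Iic R
    · simp only [indicator_of_mem hyR, smul_eq_mul]; exact hk y hy
    · simp only [indicator_of_notMem hyR, smul_zero]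
  rw [integrableOn_congr_fun e2 measurableSet_Ioi, IntegrableOn,
    integrable_indicator_iff measurableSet_Iic, IntegrableOn, Measure.restrict_restrict
    measurableSet_Iic]
  have e3 : Iic R ∩ Ioi 0 = Ioc 0 R := by ext; simp [and_comm]
  rw [e3]
  exact (hkc.integrableOn_Icc (a := 0) (b := R)).mono_set Ioc_subset_Icc_self

lemma fundSol_loc (hN : 2 ≤ N) (R : ℝ) : IntegrableOn (fundSol N) (closedBall 0 R) := by
  have : fundSol N = fun x => aN N * gN N (‖x‖ ^ 2) := by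
    funext x; exact fundSol_eq hN x
  rw [this]
  exact (gN_loc hN R).const_mul _

lemma measurable_fundSol : Measurable (fundSol N) := by
  unfold fundSol
  split_ifs with h
  · exact (Real.measurable_log.comp measurable_norm).const_mul _
  · exact (measurable_norm.pow_const _).const_mul _

lemma lap_affine {φ : E N → ℝ} (hφ : ContDiff ℝ 2 φ) (c : ℝ) (x0 y : E N) :
    lap (fun y => φ (c • (y - x0))) y = c ^ 2 * lap φ (c • (y - x0)) := by
  have hA : ∀ (f : E N → ℝ) (hf : Differentiable ℝ f) (y v : E N),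
      fderiv ℝ (fun y => f (c • (y - x0))) y v = c * fderiv ℝ f (c • (y - x0)) v := by
    intro f hf y v
    have h1 : HasFDerivAt (fun y : E N => c • (y - x0)) (c • ContinuousLinearMap.id ℝ (E N)) y :=
      ((hasFDerivAt_id y).sub_const x0).const_smul c
    have h2 := (hf (c • (y - x0))).hasFDerivAt.comp y h1
    have h3 : fderiv ℝ (fun y => f (c • (y - x0))) y = _ := h2.fderiv
    rw [h3]
    simp
  have hψ1 : ContDiff ℝ 1 (fun w => fderiv ℝ φ w) := hφ.fderiv_right (by norm_num)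
  have hψ1i : ∀ i : Fin N, ContDiff ℝ 1 (fun w => fderiv ℝ φ w (bv i)) := fun i =>
    hψ1.clm_apply contDiff_const
  unfold lap
  rw [Finset.mul_sum]
  refine Finset.sum_congr rfl fun i _ => ?_
  have e1 : (fun w => fderiv ℝ (fun y => φ (c • (y - x0))) w (bv i)) =
      fun w => c * (fun u => fderiv ℝ φ u (bv i)) (c • (w - x0)) := by
    funext w; exact hA φ (hφ.differentiable (by norm_num)) w (bv i)
  rw [e1]
  have hd : Differentiable ℝ (fun u => fderiv ℝ φ u (bv i)) := (hψ1i i).differentiable (by norm_num)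
  have h4 : Differentiable ℝ (fun w => (fun u => fderiv ℝ φ u (bv i)) (c • (w - x0))) :=
    hd.comp ((differentiable_id.sub_const x0).const_smul c)
  rw [fderiv_const_mul (h4 y)]
  rw [smul_apply, hA _ hd, smul_eq_mul]
  ring

lemma int_lap {ψ : E N → ℝ} (hψ : ContDiff ℝ 2 ψ) (hc : HasCompactSupport ψ) :
    ∫ z, lap ψ z = 0 := by
  have hψ1 : ContDiff ℝ 1 (fun w => fderiv ℝ ψ w) := hψ.fderiv_right (by norm_num)
  have hψ1i : ∀ i : Fin N, ContDiff ℝ 1 (fun w => fderiv ℝ ψ w (bv i)) := fun i =>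
    hψ1.clm_apply contDiff_const
  have hψ2i : ∀ i : Fin N, Continuous (fun z => fderiv ℝ (fun w => fderiv ℝ ψ w (bv i)) z (bv i)) :=
    fun i => ((hψ1i i).continuous_fderiv (by norm_num)).clm_apply continuous_const
  have hc1i : ∀ i : Fin N, HasCompactSupport (fun w => fderiv ℝ ψ w (bv i)) := fun i =>
    hc.fderiv_apply (𝕜 := ℝ) (bv i)
  have hc2i : ∀ i : Fin N, HasCompactSupport
      (fun z => fderiv ℝ (fun w => fderiv ℝ ψ w (bv i)) z (bv i)) := fun i =>
    (hc1i i).fderiv_apply (𝕜 := ℝ) (bv i)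
  have hi : ∀ i : Fin N, Integrable (fun z => fderiv ℝ (fun w => fderiv ℝ ψ w (bv i)) z (bv i)) :=
    fun i => (hψ2i i).integrable_of_hasCompactSupport (hc2i i)
  unfold lap
  rw [integral_finsetSum _ (fun i _ => hi i)]
  refine Finset.sum_eq_zero fun i _ => ?_
  have e1 := integral_mul_fderiv_eq_neg_fderiv_mul_of_integrable (μ := (volume : Measure (E N)))
      (f := fun _ : E N => (1 : ℝ)) (g := fun w => fderiv ℝ ψ w (bv i)) (v := bv i)
      (by simp) (by simpa using hi i)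
      (by simpa using (hψ1i i).continuous.integrable_of_hasCompactSupport (hc1i i))
      (fun x _ => differentiableAt_const _)
      (fun x _ => (hψ1i i).differentiable (by norm_num) x)
  simpa using e1

/-- the constant in the distributional identity -/
noncomputable def cc (N : ℕ) : ℝ := aN N * (2 * N * cN N)

lemma cc_pos (hN : 2 ≤ N) : 0 < cc N := by
  have h1 := aN_pos hN
  have h2 : 0 < cN N := cN_pos
  have h3 : (0 : ℝ) < N := by exact_mod_cast (by omega : 0 < N)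
  unfold cc; positivity

lemma fund_id_at (hN : 2 ≤ N) {ψ : E N → ℝ} (hψ : ContDiff ℝ 2 ψ) (hc : HasCompactSupport ψ)
    (x : E N) : ∫ y, fundSol N (y - x) * lap ψ y = -(cc N) * ψ x := by
  have e0 : (fun z : E N => ψ (z + x)) = fun z => ψ ((1 : ℝ) • (z - (-x))) := by
    funext z; simp
  have hψ' : ContDiff ℝ 2 (fun z : E N => ψ (z + x)) :=
    hψ.comp (contDiff_id.add contDiff_const)
  have hc' : HasCompactSupport (fun z : E N => ψ (z + x)) :=
    hc.comp_homeomorph (Homeomorph.addRight x)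
  have h1 := fund_id (gN_deriv hN) (gN_loc hN) hN hψ' hc'
  rw [← integral_add_right_eq_self _ x]
  have h2 : ∀ z : E N, fundSol N (z + x - x) * lap ψ (z + x) =
      aN N * (gN N (‖z‖ ^ 2) * lap (fun z : E N => ψ (z + x)) z) := by
    intro z
    rw [add_sub_cancel_right, fundSol_eq hN, e0, lap_affine hψ]
    simp [mul_assoc]
  simp only [h2]
  rw [integral_const_mul, h1, zero_add, cc]
  ring

end calculus

section fubini

variable {N : ℕ}

lemma prod_int (hN : 2 ≤ N) {ν : Measure (E N)} [IsFiniteMeasure ν] {Ω : Set (E N)}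
    (hb : Bornology.IsBounded Ω) (hν : ν Ωᶜ = 0) {ψ : E N → ℝ} (hψ : ContDiff ℝ 2 ψ)
    (hc : HasCompactSupport ψ) :
    Integrable (fun p : E N × E N => fundSol N (p.2 - p.1) * lap ψ p.2) (ν.prod volume) := by
  obtain ⟨R1, hR1⟩ := hb.subset_closedBall 0
  obtain ⟨R2, hR2⟩ := hc.isCompact.isBounded.subset_closedBall 0
  have hlapc := lap_continuous hψ
  obtain ⟨M, hM⟩ : ∃ M : ℝ, ∀ z, |lap ψ z| ≤ M := by
    have hcs : HasCompactSupport (lap ψ) := by
      refine HasCompactSupport.intro' hc.isCompact hc.isCompact.isClosed ?_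
      intro x hx; exact lap_zero_of_notMem hx
    obtain ⟨M, hM⟩ := hcs.exists_bound_of_continuous hlapc
    exact ⟨M, hM⟩
  set k : E N → ℝ := (closedBall (0 : E N) (R2 + R1)).indicator (fun z => ‖fundSol N z‖) with hk
  have hkm : Measurable k := (measurable_fundSol.norm).indicator measurableSet_closedBall
  have hki : Integrable k := by
    rw [hk, integrable_indicator_iff measurableSet_closedBall]
    exact (fundSol_loc hN _).norm
  have hk0 : ∀ z, 0 ≤ k z := fun z => indicator_nonneg (fun _ _ => norm_nonneg _) z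
  have hdom : Integrable (fun p : E N × E N => k (p.2 - p.1) * M) (ν.prod volume) := by
    refine Integrable.mul_const ?_ M
    have hmeas : AEStronglyMeasurable (fun p : E N × E N => k (p.2 - p.1)) (ν.prod volume) :=
      (hkm.comp (measurable_snd.sub measurable_fst)).aestronglyMeasurable
    rw [integrable_prod_iff hmeas]
    refine ⟨Eventually.of_forall fun x => hki.comp_sub_right x, ?_⟩
    have : (fun x : E N => ∫ y, ‖k (y - x)‖) = fun _ => ∫ y, ‖k y‖ := by
      funext x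
      exact integral_sub_right_eq_self (fun y => ‖k y‖) x
    rw [this]
    exact integrable_const _
  refine hdom.mono' ?_ ?_
  · exact ((measurable_fundSol.comp (measurable_snd.sub measurable_fst)).mul
      (hlapc.measurable.comp measurable_snd)).aestronglyMeasurable
  · have h1 : ∀ᵐ x ∂ν, x ∈ Ω := by rw [ae_iff]; exact hν
    have h2 : ∀ᵐ p ∂(ν.prod (volume : Measure (E N))), p.1 ∈ Ω :=
      Measure.quasiMeasurePreserving_fst.ae h1
    filter_upwards [h2] with p hp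
    by_cases hp2 : p.2 ∈ tsupport ψ
    · have h3 : p.2 - p.1 ∈ closedBall (0 : E N) (R2 + R1) := by
        have a1 : ‖p.1‖ ≤ R1 := by simpa using hR1 hp
        have a2 : ‖p.2‖ ≤ R2 := by simpa using hR2 hp2
        rw [mem_closedBall_zero_iff]
        exact (norm_sub_le _ _).trans (add_le_add a2 a1)
      rw [norm_mul]
      have : k (p.2 - p.1) = ‖fundSol N (p.2 - p.1)‖ := indicator_of_mem h3 _
      rw [this]
      exact mul_le_mul_of_nonneg_left (hM _) (norm_nonneg _)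
    · rw [lap_zero_of_notMem hp2]
      simp only [mul_zero, norm_zero]
      exact mul_nonneg (hk0 _) ((abs_nonneg _).trans (hM 0))

lemma pot_int (hN : 2 ≤ N) {ν : Measure (E N)} [IsFiniteMeasure ν] {Ω : Set (E N)}
    (hb : Bornology.IsBounded Ω) (hν : ν Ωᶜ = 0) {ψ : E N → ℝ} (hψ : ContDiff ℝ 2 ψ)
    (hc : HasCompactSupport ψ) :
    Integrable (fun y => (∫ x, fundSol N (y - x) ∂ν) * lap ψ y) ∧
    ∫ y, (∫ x, fundSol N (y - x) ∂ν) * lap ψ y = -(cc N) * ∫ x, ψ x ∂ν := by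
  have h := prod_int hN hb hν hψ hc
  have h1 := h.integral_prod_right
  have h2 := integral_integral_swap (f := fun x y => fundSol N (y - x) * lap ψ y) h
  simp only [integral_mul_const] at h1 h2
  refine ⟨h1, ?_⟩
  rw [← h2, ← integral_const_mul]
  congr 1; funext x
  exact fund_id_at hN hψ hc x

/-- The basic estimate. -/
lemma bump_est (hN : 2 ≤ N) :
    ∃ C₁ : ℝ, 0 ≤ C₁ ∧ ∀ {Ω : Set (E N)} (_ : IsOpen Ω) (_ : Bornology.IsBounded Ω)
    {β : ℝ≥0} {C : ℝ≥0} {v : E N → ℝ} (_ : HolderOnWith C β v Ω)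
    {ν₁ ν₂ : Measure (E N)} [IsFiniteMeasure ν₁] [IsFiniteMeasure ν₂]
    (_ : ν₁ Ωᶜ = 0) (_ : ν₂ Ωᶜ = 0)
    (_ : (fun y => (∫ x, fundSol N (y - x) ∂ν₁) - ∫ x, fundSol N (y - x) ∂ν₂)
      =ᵐ[volume.restrict Ω] v), ∀ x₀ ∈ Ω, ∀ r : ℝ, 0 < r → closedBall x₀ r ⊆ Ω →
      ∃ ψ : E N → ℝ, Continuous ψ ∧ (∀ x, 0 ≤ ψ x) ∧ (∀ x, ψ x ≤ 1) ∧
        (∀ x ∈ closedBall x₀ (r / 2), ψ x = 1) ∧ (∀ x, x ∉ closedBall x₀ r → ψ x = 0) ∧
        |(∫ x, ψ x ∂ν₁) - ∫ x, ψ x ∂ν₂| ≤ C₁ * C * r ^ ((N : ℝ) - 2 + β) := by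
  let b : ContDiffBump (0 : E N) := ⟨1 / 2, 1, by norm_num, by norm_num⟩
  set φ : E N → ℝ := fun x => b x with hφdef
  have hφ : ContDiff ℝ 2 φ := b.contDiff
  have hφc : HasCompactSupport φ := b.hasCompactSupport
  have hts : tsupport φ = closedBall 0 1 := b.tsupport_eq
  obtain ⟨M, hM⟩ : ∃ M : ℝ, ∀ z, |lap φ z| ≤ M := by
    have hcs : HasCompactSupport (lap φ) := by
      refine HasCompactSupport.intro' hφc.isCompact hφc.isCompact.isClosed ?_
      intro x hx; exact lap_zero_of_notMem hx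
    obtain ⟨M, hM⟩ := hcs.exists_bound_of_continuous (lap_continuous hφ)
    exact ⟨M, hM⟩
  have hM0 : 0 ≤ M := (abs_nonneg _).trans (hM 0)
  set κ := (volume (ball (0 : E N) 1)).toReal with hκ
  have hcc := cc_pos hN
  refine ⟨M * κ / cc N, by positivity, ?_⟩
  intro Ω hΩ hb β C v hv ν₁ ν₂ _ _ h1 h2 hu x₀ hx₀ r hr hball
  set ψ : E N → ℝ := fun y => φ (r⁻¹ • (y - x₀)) with hψdef
  have hψ : ContDiff ℝ 2 ψ := hφ.comp ((contDiff_id.sub contDiff_const).const_smul _)
  have hnorm : ∀ y : E N, ‖r⁻¹ • (y - x₀)‖ = dist y x₀ / r := by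
    intro y
    rw [norm_smul, norm_inv, Real.norm_of_nonneg hr.le, ← dist_eq_norm]; ring
  have hzero : ∀ y, y ∉ closedBall x₀ r → ψ y = 0 := by
    intro y hy
    have : r⁻¹ • (y - x₀) ∉ tsupport φ := by
      rw [hts, mem_closedBall_zero_iff, hnorm, not_le, lt_div_iff₀ hr, one_mul]
      simpa using hy
    exact image_eq_zero_of_notMem_tsupport (f := φ) this
  have hlapψ : ∀ y, lap ψ y = (r⁻¹) ^ 2 * lap φ (r⁻¹ • (y - x₀)) := fun y =>
    lap_affine hφ r⁻¹ x₀ y
  have hlap0 : ∀ y, y ∉ closedBall x₀ r → lap ψ y = 0 := by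
    intro y hy
    rw [hlapψ, lap_zero_of_notMem, mul_zero]
    rw [hts, mem_closedBall_zero_iff, hnorm, not_le, lt_div_iff₀ hr, one_mul]
    simpa using hy
  have hψc : HasCompactSupport ψ :=
    HasCompactSupport.intro' (isCompact_closedBall x₀ r) isClosed_closedBall
      (fun y hy => hzero y hy)
  refine ⟨ψ, hψ.continuous, fun x => b.nonneg, fun x => b.le_one, ?_, hzero, ?_⟩
  · intro x hx
    refine b.one_of_mem_closedBall ?_
    rw [mem_closedBall_zero_iff, hnorm]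
    have : dist x x₀ ≤ r / 2 := hx
    rw [div_le_iff₀ hr]
    show dist x x₀ ≤ 1 / 2 * r
    linarith
  · obtain ⟨i1, e1⟩ := pot_int hN hb h1 hψ hψc
    obtain ⟨i2, e2⟩ := pot_int hN hb h2 hψ hψc
    have hil : Integrable (lap ψ) := by
      refine (lap_continuous hψ).integrable_of_hasCompactSupport ?_
      exact HasCompactSupport.intro' (isCompact_closedBall x₀ r) isClosed_closedBall
        (fun y hy => hlap0 y hy)
    have e3 : ∫ y, (((∫ x, fundSol N (y - x) ∂ν₁) - ∫ x, fundSol N (y - x) ∂ν₂) - v x₀) * lap ψ y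
        = -(cc N) * ((∫ x, ψ x ∂ν₁) - ∫ x, ψ x ∂ν₂) := by
      have : (fun y => (((∫ x, fundSol N (y - x) ∂ν₁) - ∫ x, fundSol N (y - x) ∂ν₂) - v x₀) *
          lap ψ y) = fun y => ((∫ x, fundSol N (y - x) ∂ν₁) * lap ψ y -
            (∫ x, fundSol N (y - x) ∂ν₂) * lap ψ y) - v x₀ * lap ψ y := by
        funext y; ring
      have i12 : Integrable (fun y => (∫ x, fundSol N (y - x) ∂ν₁) * lap ψ y -
            (∫ x, fundSol N (y - x) ∂ν₂) * lap ψ y) := i1.sub i2
      rw [this, integral_sub i12 (hil.const_mul _), integral_sub i1 i2, e1, e2,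
        integral_const_mul, int_lap hψ hψc]
      ring
    have hbound : ‖∫ y, (((∫ x, fundSol N (y - x) ∂ν₁) - ∫ x, fundSol N (y - x) ∂ν₂) - v x₀) *
        lap ψ y‖ ≤ ∫ y, (closedBall x₀ r).indicator
          (fun _ => (C : ℝ) * r ^ (β : ℝ) * ((r⁻¹) ^ 2 * M)) y := by
      refine norm_integral_le_of_norm_le ?_ ?_
      · rw [integrable_indicator_iff measurableSet_closedBall]
        exact integrableOn_const (isCompact_closedBall x₀ r).measure_lt_top.ne
      · have hu' : ∀ᵐ y ∂(volume : Measure (E N)), y ∈ Ω →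
            (∫ x, fundSol N (y - x) ∂ν₁) - ∫ x, fundSol N (y - x) ∂ν₂ = v y :=
          (ae_restrict_iff' hΩ.measurableSet).1 hu
        filter_upwards [hu'] with y hy
        by_cases hyb : y ∈ closedBall x₀ r
        · rw [indicator_of_mem hyb, hy (hball hyb), norm_mul]
          refine mul_le_mul ?_ ?_ (norm_nonneg _) (by positivity)
          · rw [← dist_eq_norm]
            have := hv.dist_le (hball hyb) hx₀
            refine this.trans ?_
            refine mul_le_mul_of_nonneg_left ?_ C.2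
            exact Real.rpow_le_rpow dist_nonneg hyb β.2
          · rw [hlapψ, norm_mul, Real.norm_of_nonneg (by positivity)]
            exact mul_le_mul_of_nonneg_left (hM _) (by positivity)
        · rw [indicator_of_notMem hyb, hlap0 y hyb]; simp
    rw [integral_indicator_const _ measurableSet_closedBall, e3, norm_mul, norm_neg,
      Real.norm_of_nonneg hcc.le, Real.norm_eq_abs, smul_eq_mul, measureReal_def,
      Measure.addHaar_closedBall _ _ hr.le, finrank_euclideanSpace_fin, ENNReal.toReal_mul,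
      ENNReal.toReal_ofReal (by positivity)] at hbound
    have e4 : r ^ ((N : ℝ) - 2 + β) = r ^ N * (r⁻¹) ^ 2 * r ^ (β : ℝ) := by
      rw [Real.rpow_add hr, Real.rpow_sub hr, Real.rpow_natCast, Real.rpow_two]
      field_simp
    rw [e4]
    rw [div_mul_eq_mul_div, div_mul_eq_mul_div, le_div_iff₀ hcc]
    calc |(∫ x, ψ x ∂ν₁) - ∫ x, ψ x ∂ν₂| * cc N
        = cc N * |(∫ x, ψ x ∂ν₁) - ∫ x, ψ x ∂ν₂| := by ring
      _ ≤ _ := hbound
      _ = _ := by rw [← hκ]; ring

end fubini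

section density

/-- Real-variable iteration lemma. -/
lemma iterate {m : ℝ → ℝ} (hmono : Monotone m) {s C δ e : ℝ} (hs : 0 < s) (hC : 0 ≤ C)
    (he : 0 < e) (hδ : 0 < δ) (hm0 : ∀ r, 0 ≤ m r)
    (h : ∀ r, 0 < r → r < δ → m (r / 2) ≤ C * r ^ s + 2 ^ (-s - 1) * m r) :
    ∃ δ' > 0, ∀ r, 0 < r → r < δ' → m r ≤ (2 ^ (s + 1) * C + e) * 2 ^ s * r ^ s := by
  set r0 := δ / 2 with hr0
  have hr0p : 0 < r0 := by positivity
  set a0 := m r0 / r0 ^ s with ha0
  have ha0n : 0 ≤ a0 := div_nonneg (hm0 _) (Real.rpow_nonneg hr0p.le _)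
  have key : ∀ k : ℕ, m (r0 / 2 ^ k) ≤ (2 ^ (s + 1) * C + a0 / 2 ^ k) * (r0 / 2 ^ k) ^ s := by
    intro k
    induction k with
    | zero =>
      have : m r0 = a0 * r0 ^ s := by
        rw [ha0]; field_simp
      simp only [pow_zero, div_one]
      rw [this, add_mul]
      have : 0 ≤ (2 : ℝ) ^ (s + 1) * C * r0 ^ s := by positivity
      linarith
    | succ k ih =>
      set ρ := r0 / 2 ^ k with hρ
      have hρp : 0 < ρ := by positivity
      have hρδ : ρ < δ := by
        have : ρ ≤ r0 := div_le_self hr0p.le (one_le_pow₀ (by norm_num))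
        rw [hr0] at this; linarith
      have e1 : r0 / 2 ^ (k + 1) = ρ / 2 := by rw [hρ, pow_succ]; field_simp
      have h1 := h ρ hρp hρδ
      have e2 : (ρ / 2) ^ s = ρ ^ s * (2 : ℝ) ^ (-s) := by
        rw [Real.div_rpow hρp.le (by norm_num), Real.rpow_neg (by norm_num)]; rfl
      have e3 : (2 : ℝ) ^ (s + 1) * 2 ^ (-s) = 2 := by
        rw [← Real.rpow_add (by norm_num)]; norm_num
      have e4 : (2 : ℝ) ^ (-s - 1) = 2 ^ (-s) / 2 := by
        rw [Real.rpow_sub (by norm_num), Real.rpow_one]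
      have e5 : (2 : ℝ) ^ (-s - 1) * 2 ^ (s + 1) = 1 := by
        rw [← Real.rpow_add (by norm_num)]; norm_num
      rw [e1, e2]
      have hp : 0 ≤ (2 : ℝ) ^ (-s - 1) := by positivity
      calc m (ρ / 2) ≤ C * ρ ^ s + 2 ^ (-s - 1) * m ρ := h1
        _ ≤ C * ρ ^ s + 2 ^ (-s - 1) * ((2 ^ (s + 1) * C + a0 / 2 ^ k) * ρ ^ s) := by
            gcongr
        _ = (C + (2 ^ (-s - 1) * 2 ^ (s + 1)) * C + 2 ^ (-s - 1) * (a0 / 2 ^ k)) * ρ ^ s := by ring
        _ = (2 * C + 2 ^ (-s) * (a0 / 2 ^ (k + 1))) * ρ ^ s := by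
            rw [e5, e4, pow_succ]; field_simp; ring
        _ = ((2 : ℝ) ^ (s + 1) * 2 ^ (-s) * C + 2 ^ (-s) * (a0 / 2 ^ (k + 1))) * ρ ^ s := by
            rw [e3]
        _ = _ := by ring
  obtain ⟨K, hK⟩ := pow_unbounded_of_one_lt (a0 / e) (one_lt_two (α := ℝ))
  have hKle : a0 / 2 ^ K ≤ e := by
    rw [div_lt_iff₀ he] at hK
    rw [div_le_iff₀ (by positivity)]; linarith
  refine ⟨r0 / 2 ^ K, by positivity, ?_⟩
  intro r hr hrK
  -- find k ≥ K with r0/2^(k+1) < r ≤ r0/2^k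
  obtain ⟨n, hn1, hn2⟩ := exists_nat_pow_near (x := r0 / r) (y := 2)
    (by rw [le_div_iff₀ hr, one_mul]
        exact hrK.le.trans (div_le_self hr0p.le (one_le_pow₀ (by norm_num)))) (by norm_num)
  have h1 : r ≤ r0 / 2 ^ n := by
    rw [le_div_iff₀ (by positivity)]
    rw [le_div_iff₀ hr] at hn1; linarith
  have h2 : r0 / 2 ^ n < 2 * r := by
    rw [div_lt_iff₀ (by positivity)]
    rw [div_lt_iff₀ hr, pow_succ] at hn2; linarith
  have hKn : K ≤ n := by
    by_contra hlt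
    push Not at hlt
    have h3 : r0 / 2 ^ K ≤ r0 / 2 ^ (n + 1) := by
      gcongr
      · norm_num
      · exact hlt
    have h4 : r0 / 2 ^ (n + 1) < r := by
      rw [div_lt_iff₀ (by positivity)]
      rw [div_lt_iff₀ hr] at hn2; linarith
    linarith
  have h5 : a0 / 2 ^ n ≤ e := by
    refine le_trans ?_ hKle
    gcongr
    norm_num
  calc m r ≤ m (r0 / 2 ^ n) := hmono h1
    _ ≤ (2 ^ (s + 1) * C + a0 / 2 ^ n) * (r0 / 2 ^ n) ^ s := key n
    _ ≤ (2 ^ (s + 1) * C + e) * (2 * r) ^ s := by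
        gcongr
    _ = _ := by rw [Real.mul_rpow (by norm_num) hr.le]; ring

variable {X : Type*} [NormedAddCommGroup X] [NormedSpace ℝ X] [FiniteDimensional ℝ X]
  [MeasurableSpace X] [BorelSpace X]

lemma density_lemma (ν₁ ν₂ : Measure X) [IsFiniteMeasure ν₁] [IsFiniteMeasure ν₂]
    (hsing : ν₁ ⟂ₘ ν₂) {η : ℝ} (hη : 0 < η) :
    ∀ᵐ x ∂(ν₁ + ν₂), ∃ δ > 0, ∀ r, 0 < r → r < δ →
      (ν₁.real (closedBall x r) ≤ η * (ν₁ + ν₂).real (closedBall x r)) ∨
      (ν₂.real (closedBall x r) ≤ η * (ν₁ + ν₂).real (closedBall x r)) := by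
  obtain ⟨A, hA, h1, h2⟩ := hsing
  have main : ∀ (B : Set X), MeasurableSet B → ∀ (ν : Measure X) [IsFiniteMeasure ν],
      ν ≤ ν₁ + ν₂ → ν Bᶜ = 0 → ∀ᵐ x ∂(ν₁ + ν₂), x ∈ Bᶜ → ∃ δ > 0, ∀ r, 0 < r → r < δ →
        ν.real (closedBall x r) ≤ η * (ν₁ + ν₂).real (closedBall x r) := by
    intro B hB ν _ hle hν0
    filter_upwards [Besicovitch.ae_tendsto_measure_inter_div_of_measurableSet (ν₁ + ν₂) hB]
      with x hx hxB
    rw [indicator_of_notMem hxB] at hx
    have hη' : (0 : ℝ≥0∞) < ENNReal.ofReal η := ENNReal.ofReal_pos.2 hη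
    have hev := hx.eventually (gt_mem_nhds hη')
    rw [eventually_nhdsWithin_iff, Metric.eventually_nhds_iff] at hev
    obtain ⟨δ, hδ, hδ2⟩ := hev
    refine ⟨δ, hδ, fun r hr hrδ => ?_⟩
    have h3 := hδ2 (y := r) (by rw [dist_zero_right, Real.norm_of_nonneg hr.le]; exact hrδ) hr
    have h4 : (ν₁ + ν₂) (B ∩ closedBall x r) ≤ ENNReal.ofReal η * (ν₁ + ν₂) (closedBall x r) := by
      by_cases h0 : (ν₁ + ν₂) (closedBall x r) = 0
      · have : (ν₁ + ν₂) (B ∩ closedBall x r) = 0 := measure_mono_null inter_subset_right h0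
        rw [this]; exact zero_le
      · exact (ENNReal.div_le_iff h0 (measure_ne_top _ _)).1 h3.le
    have h5 : ν (closedBall x r) ≤ ENNReal.ofReal η * (ν₁ + ν₂) (closedBall x r) := by
      calc ν (closedBall x r) ≤ ν (B ∩ closedBall x r) + ν Bᶜ := by
            refine (measure_mono ?_).trans (measure_union_le _ _)
            intro y hy
            by_cases hyB : y ∈ B
            · exact Or.inl ⟨hyB, hy⟩
            · exact Or.inr hyB
        _ = ν (B ∩ closedBall x r) := by rw [hν0, add_zero]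
        _ ≤ (ν₁ + ν₂) (B ∩ closedBall x r) := hle _
        _ ≤ _ := h4
    rw [measureReal_def, measureReal_def]
    calc (ν (closedBall x r)).toReal
        ≤ (ENNReal.ofReal η * (ν₁ + ν₂) (closedBall x r)).toReal :=
          ENNReal.toReal_mono (ENNReal.mul_ne_top ENNReal.ofReal_ne_top (measure_ne_top _ _)) h5
      _ = _ := by rw [ENNReal.toReal_mul, ENNReal.toReal_ofReal hη.le]
  have m1 := main A hA ν₂ (Measure.le_add_left le_rfl) h2
  have m2 := main Aᶜ hA.compl ν₁ (Measure.le_add_right le_rfl) (by rw [compl_compl]; exact h1)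
  filter_upwards [m1, m2] with x hx1 hx2
  by_cases hxA : x ∈ A
  · obtain ⟨δ, hδ, h⟩ := hx2 (by simpa using hxA)
    exact ⟨δ, hδ, fun r hr hrδ => Or.inl (h r hr hrδ)⟩
  · obtain ⟨δ, hδ, h⟩ := hx1 hxA
    exact ⟨δ, hδ, fun r hr hrδ => Or.inr (h r hr hrδ)⟩

lemma density_bound (ν₁ ν₂ : Measure X) [IsFiniteMeasure ν₁] [IsFiniteMeasure ν₂]
    (hsing : ν₁ ⟂ₘ ν₂) {Ω : Set X} (hΩ : IsOpen Ω) (hν : (ν₁ + ν₂) Ωᶜ = 0)
    {s C e : ℝ} (hs : 0 < s) (hC : 0 ≤ C) (he : 0 < e)
    (hbump : ∀ x₀ ∈ Ω, ∀ r : ℝ, 0 < r → closedBall x₀ r ⊆ Ω →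
      ∃ ψ : X → ℝ, Continuous ψ ∧ (∀ x, 0 ≤ ψ x) ∧ (∀ x, ψ x ≤ 1) ∧
        (∀ x ∈ closedBall x₀ (r / 2), ψ x = 1) ∧ (∀ x, x ∉ closedBall x₀ r → ψ x = 0) ∧
        |(∫ x, ψ x ∂ν₁) - ∫ x, ψ x ∂ν₂| ≤ C * r ^ s) :
    ∀ᵐ x ∂(ν₁ + ν₂), ∃ δ > 0, ∀ r, 0 < r → r < δ →
      (ν₁ + ν₂).real (closedBall x r) ≤ (2 ^ (s + 1) * C + e) * 2 ^ s * r ^ s := by
  have hη : (0 : ℝ) < 2 ^ (-s - 1) / 2 := by positivity
  have hmem : ∀ᵐ x ∂(ν₁ + ν₂), x ∈ Ω := by rw [ae_iff]; exact hν
  filter_upwards [density_lemma ν₁ ν₂ hsing hη, hmem] with x hx hxΩ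
  obtain ⟨δ, hδ, hx⟩ := hx
  obtain ⟨δ2, hδ2, hball⟩ := Metric.isOpen_iff.1 hΩ x hxΩ
  have hmono : Monotone (fun r => (ν₁ + ν₂).real (closedBall x r)) := fun a b hab =>
    measureReal_mono (closedBall_subset_closedBall hab)
  refine iterate hmono hs hC he (δ := min δ δ2) (lt_min hδ hδ2) (fun r => measureReal_nonneg) ?_
  intro r hr hrδ
  have hcb : closedBall x r ⊆ Ω :=
    (closedBall_subset_ball (hrδ.trans_le (min_le_right _ _))).trans hball
  obtain ⟨ψ, hψc, hψ0, hψ1, hψ2, hψ3, hψ4⟩ := hbump x hxΩ r hr hcb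
  have hint : ∀ (ν : Measure X) [IsFiniteMeasure ν], Integrable ψ ν := fun ν _ =>
    Integrable.of_bound hψc.aestronglyMeasurable 1 (Eventually.of_forall fun y => by
      rw [Real.norm_of_nonneg (hψ0 y)]; exact hψ1 y)
  have hup : ∀ (ν : Measure X) [IsFiniteMeasure ν], ∫ y, ψ y ∂ν ≤ ν.real (closedBall x r) := by
    intro ν _
    calc ∫ y, ψ y ∂ν ≤ ∫ y, (closedBall x r).indicator (fun _ => (1 : ℝ)) y ∂ν := by
          refine integral_mono (hint ν) ((integrable_const _).indicator measurableSet_closedBall) ?_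
          intro y
          by_cases hy : y ∈ closedBall x r
          · simp only [indicator_of_mem hy]; exact hψ1 y
          · simp only [indicator_of_notMem hy]; exact (hψ3 y hy).le
      _ = _ := by rw [integral_indicator_const _ measurableSet_closedBall]; simp
  have hlow : (ν₁ + ν₂).real (closedBall x (r / 2)) ≤ ∫ y, ψ y ∂(ν₁ + ν₂) := by
    calc (ν₁ + ν₂).real (closedBall x (r / 2))
        = ∫ y, (closedBall x (r / 2)).indicator (fun _ => (1 : ℝ)) y ∂(ν₁ + ν₂) := by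
          rw [integral_indicator_const _ measurableSet_closedBall]; simp
      _ ≤ _ := by
          refine integral_mono ((integrable_const _).indicator measurableSet_closedBall)
            (hint _) ?_
          intro y
          by_cases hy : y ∈ closedBall x (r / 2)
          · simp only [indicator_of_mem hy]; exact (hψ2 y hy).ge
          · simp only [indicator_of_notMem hy]; exact hψ0 y
  rw [integral_add_measure (hint ν₁) (hint ν₂)] at hlow
  have hu1 := hup ν₁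
  have hu2 := hup ν₂
  rw [abs_le] at hψ4
  rcases hx r hr (hrδ.trans_le (min_le_left _ _)) with h | h
  · linarith [hψ4.1]
  · linarith [hψ4.2]

omit [NormedSpace ℝ X] [FiniteDimensional ℝ X] in
lemma le_hausdorff (ν : Measure X) [IsFiniteMeasure ν] {s K : ℝ} (hs : 0 < s) (hK : 0 < K)
    (h : ∀ᵐ x ∂ν, ∃ δ > 0, ∀ r, 0 < r → r < δ → ν.real (closedBall x r) ≤ K * r ^ s) :
    ν ≤ ENNReal.ofReal K • Measure.hausdorffMeasure s := by
  set A : ℕ → Set X := fun n => {x | ∀ r, 0 < r → r < 1 / ((n : ℝ) + 1) →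
    ν.real (closedBall x r) ≤ K * r ^ s} with hAdef
  have hAmono : Monotone A := by
    intro m n hmn x hx r hr hrn
    refine hx r hr (hrn.trans_le ?_)
    have : (m : ℝ) ≤ n := by exact_mod_cast hmn
    gcongr
  have hAall : ∀ᵐ x ∂ν, x ∈ ⋃ n, A n := by
    filter_upwards [h] with x hx
    obtain ⟨δ, hδ, hx⟩ := hx
    obtain ⟨n, hn⟩ := exists_nat_one_div_lt hδ
    exact mem_iUnion.2 ⟨n, fun r hr hrn => hx r hr (hrn.trans hn)⟩
  have hpt : ∀ n, ∀ x ∈ A n, ν {x} = 0 := by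
    intro n x hx
    have h1 : Tendsto (fun r : ℝ => K * r ^ s) (𝓝[>] 0) (𝓝 0) := by
      have h2 : ContinuousAt (fun r : ℝ => K * r ^ s) 0 :=
        continuousAt_const.mul (Real.continuousAt_rpow_const 0 s (Or.inr hs.le))
      have h3 := h2.tendsto.mono_left (nhdsWithin_le_nhds (s := Ioi 0))
      simpa [Real.zero_rpow hs.ne'] using h3
    have h4 : ∀ᶠ r in 𝓝[>] (0 : ℝ), ν.real {x} ≤ K * r ^ s := by
      have : Ioo (0 : ℝ) (1 / ((n : ℝ) + 1)) ∈ 𝓝[>] (0 : ℝ) := Ioo_mem_nhdsGT (by positivity)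
      filter_upwards [this] with r hr
      refine le_trans (measureReal_mono ?_) (hx r hr.1 hr.2)
      exact singleton_subset_iff.2 (mem_closedBall_self hr.1.le)
    have h5 : ν.real {x} ≤ 0 := ge_of_tendsto h1 h4
    have h6 : ν.real {x} = 0 := le_antisymm h5 measureReal_nonneg
    exact (measureReal_eq_zero_iff).1 h6
  have hKne : ENNReal.ofReal K ≠ 0 := (ENNReal.ofReal_pos.2 hK).ne'
  have hle : ∀ n, (ENNReal.ofReal K)⁻¹ • ν.restrict (A n) ≤ Measure.hausdorffMeasure s := by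
    intro n
    refine Measure.le_hausdorffMeasure s _ (ENNReal.ofReal (1 / (2 * ((n : ℝ) + 1))))
      (ENNReal.ofReal_pos.2 (by positivity)) ?_
    intro t ht
    rw [Measure.smul_apply, smul_eq_mul]
    rw [ENNReal.inv_mul_le_iff hKne ENNReal.ofReal_ne_top]
    have e1 : ν.restrict (A n) t ≤ ν (closure t ∩ A n) := by
      refine (measure_mono subset_closure).trans ?_
      rw [Measure.restrict_apply isClosed_closure.measurableSet]
    refine e1.trans ?_
    rcases (closure t ∩ A n).eq_empty_or_nonempty with hem | ⟨x, hxt, hxA⟩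
    · rw [hem, measure_empty]; exact zero_le
    · have hdt : ediam t ≠ ⊤ := ne_top_of_le_ne_top ENNReal.ofReal_ne_top ht
      set d := (ediam t).toReal with hd
      have hd0 : 0 ≤ d := ENNReal.toReal_nonneg
      have hdle : d ≤ 1 / (2 * ((n : ℝ) + 1)) := by
        rw [hd]
        exact ENNReal.toReal_le_of_le_ofReal (by positivity) ht
      have hedt : ediam t = ENNReal.ofReal d := (ENNReal.ofReal_toReal hdt).symm
      have hsub : closure t ⊆ closedBall x d := by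
        intro y hy
        have h1 : edist y x ≤ ediam (closure t) := edist_le_ediam_of_mem hy hxt
        rw [ediam_closure, hedt, edist_dist] at h1
        exact (ENNReal.ofReal_le_ofReal_iff hd0).1 h1
      rcases hd0.eq_or_lt with hd00 | hdpos
      · have : closure t ∩ A n ⊆ {x} := by
          intro y hy
          have := hsub hy.1
          rw [← hd00, closedBall_zero] at this
          exact this
        rw [measure_mono_null this (hpt n x hxA)]; exact zero_le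
      · have h1 : ν.real (closedBall x d) ≤ K * d ^ s := by
          refine hxA d hdpos (hdle.trans_lt ?_)
          have : (0 : ℝ) < (n : ℝ) + 1 := by positivity
          rw [div_lt_div_iff_of_pos_left one_pos (by positivity) this]
          linarith
        calc ν (closure t ∩ A n) ≤ ν (closedBall x d) :=
              measure_mono (inter_subset_left.trans hsub)
          _ = ENNReal.ofReal (ν.real (closedBall x d)) := by
              rw [measureReal_def, ENNReal.ofReal_toReal (measure_ne_top _ _)]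
          _ ≤ ENNReal.ofReal (K * d ^ s) := ENNReal.ofReal_le_ofReal h1
          _ = ENNReal.ofReal K * ediam t ^ s := by
              rw [ENNReal.ofReal_mul hK.le, hedt, ENNReal.ofReal_rpow_of_pos hdpos]
  refine Measure.le_iff.2 fun B hB => ?_
  have h1 : ν B = ν (⋃ n, B ∩ A n) := by
    rw [← inter_iUnion]
    refine le_antisymm ?_ (measure_mono inter_subset_left)
    calc ν B ≤ ν (B ∩ ⋃ n, A n) + ν (⋃ n, A n)ᶜ := by
          refine (measure_mono ?_).trans (measure_union_le _ _)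
          intro y hy
          by_cases hyA : y ∈ ⋃ n, A n
          · exact Or.inl ⟨hy, hyA⟩
          · exact Or.inr hyA
      _ = _ := by
          have : ν (⋃ n, A n)ᶜ = 0 := by rw [ae_iff] at hAall; exact hAall
          rw [this, add_zero]
  have hdir : Directed (· ⊆ ·) (fun n => B ∩ A n) :=
    (monotone_const.inter hAmono).directed_le
  rw [h1, hdir.measure_iUnion]
  refine iSup_le fun n => ?_
  have h2 : ν (B ∩ A n) = ν.restrict (A n) B := (Measure.restrict_apply hB).symm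
  rw [h2, Measure.smul_apply, smul_eq_mul]
  have h3 := hle n B
  rw [Measure.smul_apply, smul_eq_mul, ENNReal.inv_mul_le_iff hKne ENNReal.ofReal_ne_top] at h3
  exact h3

end density

/-- **Main theorem.** Let `N ≥ 2` and `0 < β < 1`.

(1) There is a constant `K = K(N, β)` such that for every bounded open `Ω ⊆ ℝ^N` and every finite
signed Borel measure `μ` on `Ω` whose Newtonian potential agrees a.e. on `Ω` with a function `v`
satisfying `|v x - v y| ≤ C |x - y|^β` on `Ω`, one has `|μ| ≤ K C H^{N-2+β}`.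

(2) Consequently every such `μ` is the strong limit of signed measures `μ_n` on `Ω` with
`|μ_n| ≤ n H^{N-2+β}` for every `n`, whatever the normalisation `c` of the Hausdorff measure. -/
theorem result (N : ℕ) (hN : 2 ≤ N) (β : ℝ≥0) (hβ0 : 0 < β) (_hβ1 : β < 1) :
    (∃ K : ℝ≥0, ∀ Ω : Set (E N), IsOpen Ω → Bornology.IsBounded Ω →
      ∀ μ : SignedMeasure (E N), μ.totalVariation Ωᶜ = 0 →
      ∀ (C : ℝ≥0) (v : E N → ℝ), 0 < C → HolderOnWith C β v Ω →
        newtonPotential μ =ᵐ[volume.restrict Ω] v →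
        μ.totalVariation ≤ ((K * C : ℝ≥0) : ℝ≥0∞) • Measure.hausdorffMeasure ((N : ℝ) - 2 + β)) ∧
    (∀ Ω : Set (E N), IsOpen Ω → Bornology.IsBounded Ω →
      ∀ μ : SignedMeasure (E N), μ.totalVariation Ωᶜ = 0 →
      (∃ (C : ℝ≥0) (v : E N → ℝ), HolderOnWith C β v Ω ∧
        newtonPotential μ =ᵐ[volume.restrict Ω] v) →
      ∀ c : ℝ≥0∞, c ≠ 0 → ∃ μs : ℕ → SignedMeasure (E N),
        (∀ n, (μs n).totalVariation Ωᶜ = 0) ∧
        (∀ n, (μs n).totalVariation ≤
          (n : ℝ≥0∞) • (c • Measure.hausdorffMeasure ((N : ℝ) - 2 + β))) ∧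
        Tendsto (fun n => (μs n - μ).totalVariation univ) atTop (𝓝 0)) := by
  have hN' : (2 : ℝ) ≤ N := by exact_mod_cast hN
  have hβ' : (0 : ℝ) < β := by exact_mod_cast hβ0
  have hs : (0 : ℝ) < (N : ℝ) - 2 + β := by linarith
  obtain ⟨C₁, hC₁, hbump⟩ := bump_est (N := N) hN
  have part1 : ∃ K : ℝ≥0, ∀ Ω : Set (E N), IsOpen Ω → Bornology.IsBounded Ω →
      ∀ μ : SignedMeasure (E N), μ.totalVariation Ωᶜ = 0 →
      ∀ (C : ℝ≥0) (v : E N → ℝ), 0 < C → HolderOnWith C β v Ω →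
        newtonPotential μ =ᵐ[volume.restrict Ω] v →
        μ.totalVariation ≤
          ((K * C : ℝ≥0) : ℝ≥0∞) • Measure.hausdorffMeasure ((N : ℝ) - 2 + β) := by
    set s : ℝ := (N : ℝ) - 2 + β with hsdef
    refine ⟨Real.toNNReal ((2 ^ (s + 1) * C₁ + 1) * 2 ^ s), ?_⟩
    intro Ω hΩ hb μ hμ C v hC hv hu
    have hC' : (0 : ℝ) < C := by exact_mod_cast hC
    have htv : μ.totalVariation = μ.toJordanDecomposition.posPart +
      μ.toJordanDecomposition.negPart := rfl
    have h12 : μ.toJordanDecomposition.posPart Ωᶜ = 0 ∧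
        μ.toJordanDecomposition.negPart Ωᶜ = 0 := by
      rw [htv, Measure.add_apply, add_eq_zero] at hμ
      exact hμ
    have hb1 := hbump hΩ hb hv h12.1 h12.2 hu
    have hd := density_bound _ _ μ.toJordanDecomposition.mutuallySingular hΩ hμ hs
      (mul_nonneg hC₁ C.2) hC' hb1
    have hK : 0 < (2 ^ (s + 1) * (C₁ * C) + C) * 2 ^ s := by positivity
    have := le_hausdorff μ.totalVariation hs hK hd
    refine this.trans (le_of_eq ?_)
    congr 1
    rw [ENNReal.ofReal]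
    congr 1
    have e1 : C = Real.toNNReal (C : ℝ) := Real.toNNReal_coe.symm
    conv_rhs => rw [e1]
    rw [← Real.toNNReal_mul (by positivity)]
    congr 1
    ring
  refine ⟨part1, ?_⟩
  obtain ⟨K, hK⟩ := part1
  intro Ω hΩ hb μ hμ ⟨C, v, hv, hu⟩ c hc
  have hv' : HolderOnWith (C + 1) β v Ω := by
    intro x hx y hy
    refine (hv x hx y hy).trans ?_
    gcongr
    exact le_self_add
  have h1 := hK Ω hΩ hb μ hμ (C + 1) v (by positivity) hv' hu
  obtain ⟨n₀, hn₀⟩ : ∃ n₀ : ℕ, ((K * (C + 1) : ℝ≥0) : ℝ≥0∞) / c < n₀ := by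
    refine ENNReal.exists_nat_gt ?_
    exact (ENNReal.div_lt_top ENNReal.coe_ne_top hc).ne
  refine ⟨fun n => if n₀ ≤ n then μ else 0, ?_, ?_, ?_⟩
  · intro n
    beta_reduce
    split_ifs
    · exact hμ
    · rw [SignedMeasure.totalVariation_zero]; simp
  · intro n
    beta_reduce
    split_ifs with hn
    · refine h1.trans ?_
      refine Measure.le_iff.2 fun B _ => ?_
      simp only [Measure.smul_apply, smul_eq_mul]
      rw [← mul_assoc]
      refine mul_le_mul_left ?_ _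
      have h2 : ((K * (C + 1) : ℝ≥0) : ℝ≥0∞) / c ≤ n :=
        hn₀.le.trans (by exact_mod_cast hn)
      by_cases hct : c = ⊤
      · rw [hct]
        by_cases hn0 : (n : ℝ≥0∞) = 0
        · exfalso
          have : (n₀ : ℝ≥0∞) ≤ n := by exact_mod_cast hn
          rw [hn0] at this
          exact absurd (hn₀.trans_le this) (by simp)
        · rw [ENNReal.mul_top hn0]; exact le_top
      · exact (ENNReal.div_le_iff hc hct).1 h2
    · rw [SignedMeasure.totalVariation_zero]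
      exact Measure.zero_le _
  · refine tendsto_const_nhds.congr' ?_
    filter_upwards [eventually_ge_atTop n₀] with n hn
    rw [if_pos hn, sub_self, SignedMeasure.totalVariation_zero]
    simp

end Pool.Agent.Results.MP_19b229_an.HolderPotential
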